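import Mathlib

set_option autoImplicit false

open scoped ENNReal BigOperators

namespace Pool.Agent.Results.MP_c9b02e_lc.Disproof

/-- A realisation `(W, R, S)` of the user's data: `R` and `S` are disjoint subsets of the `K`
message indices with `|R| = M₁` (reusable side information) and `|S| = M₂` (single-use side
information), and `W` (the demanded index) lies outside `R ∪ S`. -/
structure Triple (K M₁ M₂ : ℕ) where
  W : Fin K
  R : Finset (Fin K)
  S : Finset (Fin K)
  card_R : R.card = M₁
  card_S : S.card = M₂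
  disjoint_RS : Disjoint R S
  W_notMem : W ∉ R ∪ S

variable {K M₁ M₂ : ℕ}

theorem Triple.ext' {t t' : Triple K M₁ M₂} (h1 : t.W = t'.W) (h2 : t.R = t'.R)
    (h3 : t.S = t'.S) : t = t' := by
  cases t; cases t'; simp_all

noncomputable instance : Fintype (Triple K M₁ M₂) :=
  Fintype.ofInjective (fun t : Triple K M₁ M₂ => (t.W, t.R, t.S)) (by
    intro t t' h
    simp only [Prod.mk.injEq] at h
    exact Triple.ext' h.1 h.2.1 h.2.2)

theorem Triple.nonempty (h : M₁ + M₂ < K) : Nonempty (Triple K M₁ M₂) := by
  classical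
  obtain ⟨R, -, hR⟩ := Finset.exists_subset_card_eq
    (s := (Finset.univ : Finset (Fin K))) (n := M₁) (by simp; omega)
  obtain ⟨S, hS, hS'⟩ := Finset.exists_subset_card_eq
    (s := (Finset.univ : Finset (Fin K)) \ R) (n := M₂) (by
      rw [Finset.card_sdiff_of_subset (Finset.subset_univ _)]; simp; omega)
  have hne : ((Finset.univ : Finset (Fin K)) \ (R ∪ S)).Nonempty := by
    rw [← Finset.card_pos, Finset.card_sdiff_of_subset (Finset.subset_univ _)]
    have := Finset.card_union_le R S
    simp; omega
  obtain ⟨w, hw⟩ := hne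
  refine ⟨⟨w, R, S, hR, hS', ?_, ?_⟩⟩
  · rw [Finset.disjoint_left]
    intro a ha ha'
    have := hS ha'
    simp at this
    exact this ha
  · simpa using hw

/-- The law of `(W, R, S)`: uniform over all admissible triples.  Since every admissible pair
`(R, S)` leaves exactly `K - M₁ - M₂` choices of `W`, this is the law under which `(R, S)` is
uniform over admissible pairs and, given `(R, S)`, `W` is uniform outside `R ∪ S`. -/
noncomputable def tripleLaw (h : M₁ + M₂ < K) : PMF (Triple K M₁ M₂) :=
  haveI := Triple.nonempty h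
  PMF.uniformOfFintype (Triple K M₁ M₂)

/-- A single-server protocol.  The messages are `X : Fin K → (Fin n → F)` with `F` a finite field
and `n ≥ 1`.  The query is a (randomised) function of `(W, R, S)`, given by the conditional law
`query t` of the query when `(W, R, S) = t`; the answer is a deterministic function of the query and
of all messages.  The query and answer alphabets are arbitrary types. -/
structure Protocol (K M₁ M₂ : ℕ) where
  F : Type
  [instField : Field F]
  [instFintype : Fintype F]
  n : ℕ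
  one_le_n : 1 ≤ n
  Query : Type
  Answer : Type
  query : Triple K M₁ M₂ → PMF Query
  answer : Query → (Fin K → Fin n → F) → Answer

attribute [instance] Protocol.instField Protocol.instFintype

/-- The joint law of `((W, R, S), Q, X)`: draw the triple, then the query given the triple, and
independently draw the `K` messages independently and uniformly. -/
noncomputable def Protocol.joint (h : M₁ + M₂ < K) (P : Protocol K M₁ M₂) :
    PMF (Triple K M₁ M₂ × P.Query × (Fin K → Fin P.n → P.F)) :=
  (tripleLaw h).bind fun t => (P.query t).bind fun q =>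
    (PMF.uniformOfFintype (Fin K → Fin P.n → P.F)).map fun x => (t, q, x)

/-- Probability of an event under the joint law. -/
noncomputable def Protocol.prob (h : M₁ + M₂ < K) (P : Protocol K M₁ M₂)
    (E : Set (Triple K M₁ M₂ × P.Query × (Fin K → Fin P.n → P.F))) : ℝ≥0∞ :=
  (P.joint h).toOuterMeasure E

/-- Privacy: for every value `q` of the query (of positive probability) and all `w`, `r` with
`|r| = M₁`, `w ∉ r`, one has `P(W = w, R = r | Q = q) = P(W = w, R = r)`. -/
def Protocol.Private (h : M₁ + M₂ < K) (P : Protocol K M₁ M₂) : Prop :=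
  ∀ (q : P.Query) (w : Fin K) (r : Finset (Fin K)), r.card = M₁ → w ∉ r →
    P.prob h {ω | ω.2.1 = q} ≠ 0 →
    P.prob h {ω | ω.1.W = w ∧ ω.1.R = r ∧ ω.2.1 = q} / P.prob h {ω | ω.2.1 = q}
      = P.prob h {ω | ω.1.W = w ∧ ω.1.R = r}

/-- Recoverability, `H(X_W | A, Q, X_R, X_S) = 0` for the user, who knows `(W, R, S)`: whenever
the query `q` has positive probability for the triple `t`, the message with index `t.W` is a
function of the answer and of the messages with indices in `t.R ∪ t.S`. -/
def Protocol.Recoverable (P : Protocol K M₁ M₂) : Prop :=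
  ∀ (t : Triple K M₁ M₂) (q : P.Query), P.query t q ≠ 0 →
    ∀ x x' : Fin K → Fin P.n → P.F, (∀ k ∈ t.R ∪ t.S, x k = x' k) →
      P.answer q x = P.answer q x' → x t.W = x' t.W

/-- The law of the answer `A`. -/
noncomputable def Protocol.answerLaw (h : M₁ + M₂ < K) (P : Protocol K M₁ M₂) : PMF P.Answer :=
  (P.joint h).map fun ω => P.answer ω.2.1 ω.2.2

/-- Shannon entropy, in bits, of a discrete law (possibly `∞`). -/
noncomputable def entropy {α : Type} (p : PMF α) : ℝ≥0∞ :=
  ∑' a, ENNReal.ofReal (Real.negMulLog (p a).toReal / Real.log 2)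

/-- The rate `B / H(A)`, where `B = n log₂ |F|` is the entropy of one message. -/
noncomputable def Protocol.rate (h : M₁ + M₂ < K) (P : Protocol K M₁ M₂) : ℝ≥0∞ :=
  ENNReal.ofReal (P.n * Real.logb 2 (Fintype.card P.F)) / entropy (P.answerLaw h)

/-- The capacity: the supremum of the rate over all private and recoverable protocols. -/
noncomputable def capacity (K M₁ M₂ : ℕ) (h : M₁ + M₂ < K) : ℝ≥0∞ :=
  ⨆ (P : Protocol K M₁ M₂) (_ : P.Private h) (_ : P.Recoverable), P.rate h

/-! ### Basic computations -/

theorem joint_event (h : M₁ + M₂ < K) (P : Protocol K M₁ M₂)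
    (p : Triple K M₁ M₂ → P.Query → Prop) [∀ t q, Decidable (p t q)] :
    P.prob h {ω | p ω.1 ω.2.1} =
      ∑' t, (tripleLaw h) t * ∑' q, (P.query t) q * (if p t q then 1 else 0) := by
  unfold Protocol.prob Protocol.joint
  rw [PMF.toOuterMeasure_bind_apply]
  congr 1
  funext t
  congr 1
  rw [PMF.toOuterMeasure_bind_apply]
  congr 1
  funext q
  congr 1
  rw [PMF.toOuterMeasure_map_apply]
  by_cases hp : p t q
  · have : ((fun x : Fin K → Fin P.n → P.F => (t, q, x)) ⁻¹' {ω | p ω.1 ω.2.1}) = Set.univ := by
      ext x; simp [hp]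
    rw [this, if_pos hp]
    exact (PMF.toOuterMeasure_apply_eq_one_iff _ _).2 (Set.subset_univ _)
  · have : ((fun x : Fin K → Fin P.n → P.F => (t, q, x)) ⁻¹' {ω | p ω.1 ω.2.1}) = ∅ := by
      ext x; simp [hp]
    rw [this, if_neg hp]
    simp

theorem tripleLaw_apply (h : M₁ + M₂ < K) (t : Triple K M₁ M₂) :
    tripleLaw h t = (Fintype.card (Triple K M₁ M₂) : ℝ≥0∞)⁻¹ := by
  have := Triple.nonempty h
  simp [tripleLaw]

theorem answerLaw_eq (h : M₁ + M₂ < K) (P : Protocol K M₁ M₂) :
    P.answerLaw h = (tripleLaw h).bind fun t => (P.query t).bind fun q =>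
      (PMF.uniformOfFintype (Fin K → Fin P.n → P.F)).map (P.answer q) := by
  unfold Protocol.answerLaw Protocol.joint
  rw [PMF.map_bind]
  congr 1
  funext t
  rw [PMF.map_bind]
  congr 1
  funext q
  rw [PMF.map_comp]
  rfl


/-! ### Two bounds on the entropy -/

theorem entropy_ge {α : Type} (p : PMF α) (c : ℝ)
    (hp : ∀ a, (p a).toReal ≤ c) :
    ENNReal.ofReal (Real.log (1 / c) / Real.log 2) ≤ entropy p := by
  have hlog2 : 0 < Real.log 2 := Real.log_pos (by norm_num)
  have h1 : ENNReal.ofReal (Real.log (1 / c) / Real.log 2) =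
      ∑' a, p a * ENNReal.ofReal (Real.log (1 / c) / Real.log 2) := by
    rw [ENNReal.tsum_mul_right, p.tsum_coe, one_mul]
  rw [h1]
  unfold entropy
  refine ENNReal.tsum_le_tsum fun a => ?_
  have hfin : p a ≠ ∞ := p.apply_ne_top a
  have h2 : p a * ENNReal.ofReal (Real.log (1 / c) / Real.log 2) =
      ENNReal.ofReal ((p a).toReal * (Real.log (1 / c) / Real.log 2)) := by
    rw [ENNReal.ofReal_mul ENNReal.toReal_nonneg, ENNReal.ofReal_toReal hfin]
  rw [h2]
  apply ENNReal.ofReal_le_ofReal
  rw [← mul_div_assoc]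
  apply div_le_div_of_nonneg_right _ hlog2.le
  rcases eq_or_lt_of_le (ENNReal.toReal_nonneg (a := p a)) with h0 | h0
  · rw [← h0]; simp
  · rw [Real.negMulLog, one_div, Real.log_inv]
    have : Real.log (p a).toReal ≤ Real.log c := Real.log_le_log h0 (hp a)
    nlinarith

theorem entropy_le {α : Type} [Fintype α] [Nonempty α] (p : PMF α) :
    entropy p ≤ ENNReal.ofReal (Real.log (Fintype.card α) / Real.log 2) := by
  have hlog2 : 0 < Real.log 2 := Real.log_pos (by norm_num)
  unfold entropy
  rw [tsum_fintype, ← ENNReal.ofReal_sum_of_nonneg]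
  · apply ENNReal.ofReal_le_ofReal
    rw [← Finset.sum_div]
    apply div_le_div_of_nonneg_right _ hlog2.le
    have hN : (0 : ℝ) < Fintype.card α := by exact_mod_cast Fintype.card_pos
    have hsum : ∑ a, (p a).toReal = 1 := by
      have h1 := p.tsum_coe
      rw [tsum_fintype] at h1
      rw [← ENNReal.toReal_sum (fun a _ => p.apply_ne_top a), h1]
      simp
    have hJ := Real.concaveOn_negMulLog.le_map_sum (t := (Finset.univ : Finset α))
      (w := fun _ => (Fintype.card α : ℝ)⁻¹) (p := fun a => (p a).toReal)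
      (fun _ _ => by positivity) (by simp [Finset.sum_const, Finset.card_univ, hN.ne'])
      (fun a _ => ENNReal.toReal_nonneg)
    simp only [smul_eq_mul] at hJ
    rw [← Finset.mul_sum, ← Finset.mul_sum, hsum, mul_one, Real.negMulLog, Real.log_inv] at hJ
    have := mul_le_mul_of_nonneg_left hJ hN.le
    rw [← mul_assoc, mul_inv_cancel₀ hN.ne', one_mul] at this
    refine this.trans (le_of_eq ?_)
    field_simp
  · intro a _
    apply div_nonneg _ hlog2.le
    apply Real.negMulLog_nonneg ENNReal.toReal_nonneg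
    have := p.coe_le_one a
    exact ENNReal.toReal_le_of_le_ofReal zero_le_one (by simpa using this)

/-! ### The converse: no protocol has rate above `1 / 2` once `M₁ + M₂ + 1 < K` -/

/-- By privacy, every demand `w` and reusable set `r` stays possible under every query. -/
theorem exists_triple (h : M₁ + M₂ < K) (P : Protocol K M₁ M₂) (hP : P.Private h)
    (t₀ : Triple K M₁ M₂) (q : P.Query) (hq : P.query t₀ q ≠ 0) (w : Fin K)
    (r : Finset (Fin K)) (hr : r.card = M₁) (hw : w ∉ r) :
    ∃ t : Triple K M₁ M₂, t.W = w ∧ t.R = r ∧ P.query t q ≠ 0 := by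
  classical
  have hT : ∀ t, tripleLaw h t ≠ 0 := by
    intro t
    rw [tripleLaw_apply]
    simp
  have hq0 : P.prob h {ω | ω.2.1 = q} ≠ 0 := by
    rw [joint_event h P (fun _ q' => q' = q)]
    intro h0
    rw [ENNReal.tsum_eq_zero] at h0
    have h1 := h0 t₀
    rw [mul_eq_zero] at h1
    rcases h1 with h1 | h1
    · exact hT _ h1
    · rw [ENNReal.tsum_eq_zero] at h1
      have h2 := h1 q
      simp at h2
      exact hq h2
  have hpriv := hP q w r hr hw hq0
  have hwr : P.prob h {ω | ω.1.W = w ∧ ω.1.R = r} ≠ 0 := by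
    rw [joint_event h P (fun t _ => t.W = w ∧ t.R = r)]
    intro h0
    rw [ENNReal.tsum_eq_zero] at h0
    obtain ⟨S, hS, hS'⟩ := Finset.exists_subset_card_eq
      (s := (Finset.univ : Finset (Fin K)) \ insert w r) (n := M₂) (by
        rw [Finset.card_sdiff_of_subset (Finset.subset_univ _), Finset.card_insert_of_notMem hw]
        simp; omega)
    have hS'' : ∀ a ∈ S, a ≠ w ∧ a ∉ r := by
      intro a ha
      have := hS ha
      simpa [not_or] using this
    have h1 := h0 ⟨w, r, S, hr, hS', by
      rw [Finset.disjoint_left]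
      intro a ha ha'
      exact (hS'' a ha').2 ha, by
      simp only [Finset.mem_union, not_or]
      exact ⟨hw, fun hwS => (hS'' w hwS).1 rfl⟩⟩
    rw [mul_eq_zero] at h1
    rcases h1 with h1 | h1
    · exact hT _ h1
    · simp at h1
  have hjoint : P.prob h {ω | ω.1.W = w ∧ ω.1.R = r ∧ ω.2.1 = q} ≠ 0 := by
    intro h0
    rw [h0] at hpriv
    simp at hpriv
    exact hwr hpriv.symm
  rw [joint_event h P (fun t q' => t.W = w ∧ t.R = r ∧ q' = q)] at hjoint
  by_contra hcon
  push Not at hcon
  apply hjoint
  rw [ENNReal.tsum_eq_zero]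
  intro t
  rw [mul_eq_zero]
  right
  rw [ENNReal.tsum_eq_zero]
  intro q'
  by_cases hc : t.W = w ∧ t.R = r ∧ q' = q
  · obtain ⟨h1, h2, h3⟩ := hc
    subst h3
    rw [hcon t h1 h2]
    simp
  · simp [hc]


/-- Under every query in the support the answer takes each value with conditional probability at
most `|V|⁻²`, because it is injective in two of the messages when all the others are fixed. -/
theorem fiber_bound (h : M₁ + M₂ + 1 < K) (P : Protocol K M₁ M₂)
    (hP : P.Private (by omega)) (hR : P.Recoverable)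
    (t₀ : Triple K M₁ M₂) (q : P.Query) (hq : P.query t₀ q ≠ 0) (a : P.Answer) :
    ((PMF.uniformOfFintype (Fin K → Fin P.n → P.F)).map (P.answer q)) a ≤
      ((Fintype.card (Fin P.n → P.F) : ℝ≥0∞)⁻¹) ^ 2 := by
  classical
  -- the two coordinates
  obtain ⟨w₁, r, hr, hw₁, s₁, hs₁⟩ : ∃ w₁ : Fin K, ∃ r : Finset (Fin K), r.card = M₁ ∧ w₁ ∉ r ∧
      ∃ s : Finset (Fin K), s.card = M₂ ∧ ∃ t : Triple K M₁ M₂, t.W = w₁ ∧ t.R = r ∧ t.S = s ∧
        P.query t q ≠ 0 :=
    ⟨t₀.W, t₀.R, t₀.card_R, fun hh => t₀.W_notMem (Finset.mem_union_left _ hh), t₀.S, t₀.card_S,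
      t₀, rfl, rfl, rfl, hq⟩
  obtain ⟨hs₁c, t₁, ht₁W, ht₁R, ht₁S, ht₁q⟩ := hs₁
  have hne : ((Finset.univ : Finset (Fin K)) \ insert w₁ (r ∪ s₁)).Nonempty := by
    rw [← Finset.card_pos, Finset.card_sdiff_of_subset (Finset.subset_univ _)]
    have h1 := Finset.card_union_le r s₁
    have h2 := Finset.card_insert_le w₁ (r ∪ s₁)
    simp; omega
  obtain ⟨w₂, hw₂⟩ := hne
  simp only [Finset.mem_sdiff, Finset.mem_univ, Finset.mem_insert, Finset.mem_union, true_and,
    not_or] at hw₂
  obtain ⟨hw₂1, hw₂r, hw₂s⟩ := hw₂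
  obtain ⟨t₂, ht₂W, ht₂R, ht₂q⟩ := exists_triple (by omega) P hP t₀ q hq w₂ r hr hw₂r
  set V := Fin P.n → P.F with hV
  -- injectivity
  have hinj : ∀ x x' : Fin K → V, (∀ k, k ≠ w₁ → k ≠ w₂ → x k = x' k) →
      P.answer q x = P.answer q x' → x = x' := by
    intro x x' hx hA
    have e1 : x w₁ = x' w₁ := by
      have := hR t₁ q ht₁q x x' (by
        intro k hk
        rw [ht₁R, ht₁S] at hk
        apply hx k
        · rintro rfl
          exact t₁.W_notMem (by rw [ht₁W, ht₁R, ht₁S]; exact hk)
        · rintro rfl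
          rw [Finset.mem_union] at hk
          exact hk.elim hw₂r hw₂s) hA
      rwa [ht₁W] at this
    have e2 : x w₂ = x' w₂ := by
      have := hR t₂ q ht₂q x x' (by
        intro k hk
        by_cases hk1 : k = w₁
        · rw [hk1, e1]
        · apply hx k hk1
          rintro rfl
          exact t₂.W_notMem (by rw [ht₂W]; exact hk)) hA
      rwa [ht₂W] at this
    funext k
    by_cases hk1 : k = w₁
    · rw [hk1, e1]
    · by_cases hk2 : k = w₂
      · rw [hk2, e2]
      · exact hx k hk1 hk2
  -- counting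
  have hcard : (Finset.univ.filter fun x : Fin K → V => P.answer q x = a).card *
      (Fintype.card V) ^ 2 ≤ Fintype.card (Fin K → V) := by
    have hsub : (Finset.univ.filter fun x : Fin K → V => P.answer q x = a).card ≤
        Fintype.card ({k : Fin K // k ≠ w₁ ∧ k ≠ w₂} → V) := by
      rw [← Finset.card_univ]
      apply Finset.card_le_card_of_injOn (fun x k => x k.1) (fun _ _ => Finset.mem_coe.2
        (Finset.mem_univ _))
      intro x hx x' hx' hxx'
      simp only [Finset.coe_filter, Finset.mem_univ, true_and, Set.mem_ofPred_eq] at hx hx'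
      apply hinj x x' _ (hx.trans hx'.symm)
      intro k hk1 hk2
      exact congrFun hxx' ⟨k, hk1, hk2⟩
    have hcc : Fintype.card {k : Fin K // k ≠ w₁ ∧ k ≠ w₂} + 2 = K := by
      have : Fintype.card {k : Fin K // k ≠ w₁ ∧ k ≠ w₂} =
          ((Finset.univ : Finset (Fin K)) \ {w₁, w₂}).card := by
        rw [Fintype.card_subtype]
        congr 1
        ext k
        simp
      rw [this, Finset.card_sdiff_of_subset (Finset.subset_univ _),
        Finset.card_pair (Ne.symm hw₂1)]
      simp
      omega
    have e1 : Fintype.card ({k : Fin K // k ≠ w₁ ∧ k ≠ w₂} → V) =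
        Fintype.card V ^ Fintype.card {k : Fin K // k ≠ w₁ ∧ k ≠ w₂} := Fintype.card_fun
    have e2 : Fintype.card (Fin K → V) = Fintype.card V ^ Fintype.card (Fin K) :=
      Fintype.card_fun
    calc _ ≤ Fintype.card ({k : Fin K // k ≠ w₁ ∧ k ≠ w₂} → V) * Fintype.card V ^ 2 :=
          Nat.mul_le_mul_right _ hsub
      _ = Fintype.card (Fin K → V) := by
          rw [e1, e2, ← pow_add, hcc, Fintype.card_fin]
  -- conclusion
  rw [← PMF.toOuterMeasure_apply_singleton, PMF.toOuterMeasure_map_apply,
    PMF.toOuterMeasure_uniformOfFintype_apply]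
  have hset : Fintype.card ↑((P.answer q) ⁻¹' {a} : Set (Fin K → V)) =
      (Finset.univ.filter fun x : Fin K → V => P.answer q x = a).card := by
    rw [← Set.toFinset_card]
    congr 1
    ext x
    simp
  rw [hset]
  have hVpos : (Fintype.card V : ℝ≥0∞) ≠ 0 := by
    simp [Fintype.card_ne_zero]
  have hKpos : (Fintype.card (Fin K → V) : ℝ≥0∞) ≠ 0 := by
    simp [Fintype.card_ne_zero]
  rw [← ENNReal.inv_pow, ENNReal.div_le_iff hKpos (by simp),
    mul_comm, ← div_eq_mul_inv, ENNReal.le_div_iff_mul_le (Or.inl (pow_ne_zero _ hVpos))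
      (Or.inl (by simp))]
  exact_mod_cast hcard


theorem answerLaw_le (h : M₁ + M₂ + 1 < K) (P : Protocol K M₁ M₂)
    (hP : P.Private (by omega)) (hR : P.Recoverable) (a : P.Answer) :
    P.answerLaw (by omega) a ≤ ((Fintype.card (Fin P.n → P.F) : ℝ≥0∞)⁻¹) ^ 2 := by
  rw [answerLaw_eq, PMF.bind_apply]
  calc _ ≤ ∑' t, (tripleLaw (K := K) (M₁ := M₁) (M₂ := M₂) (by omega)) t *
        ((Fintype.card (Fin P.n → P.F) : ℝ≥0∞)⁻¹) ^ 2 := by
        refine ENNReal.tsum_le_tsum fun t => ?_
        refine mul_le_mul_right ?_ _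
        rw [PMF.bind_apply]
        calc _ ≤ ∑' q, (P.query t) q * ((Fintype.card (Fin P.n → P.F) : ℝ≥0∞)⁻¹) ^ 2 := by
              refine ENNReal.tsum_le_tsum fun q => ?_
              by_cases hq : P.query t q = 0
              · simp [hq]
              · exact mul_le_mul_right (fiber_bound h P hP hR t q hq a) _
          _ = _ := by rw [ENNReal.tsum_mul_right, PMF.tsum_coe, one_mul]
    _ = _ := by rw [ENNReal.tsum_mul_right, PMF.tsum_coe, one_mul]

/-- Every private and recoverable protocol has `H(A) ≥ 2B` when `M₁ + M₂ + 1 < K`. -/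
theorem entropy_answer_ge (h : M₁ + M₂ + 1 < K) (P : Protocol K M₁ M₂)
    (hP : P.Private (by omega)) (hR : P.Recoverable) :
    ENNReal.ofReal (2 * (P.n * Real.logb 2 (Fintype.card P.F))) ≤
      entropy (P.answerLaw (by omega)) := by
  have hVpos : (0 : ℝ) < Fintype.card (Fin P.n → P.F) := by exact_mod_cast Fintype.card_pos
  have h1 := entropy_ge (P.answerLaw (by omega))
    ((((Fintype.card (Fin P.n → P.F) : ℝ))⁻¹) ^ 2) (by
      intro a
      have := answerLaw_le h P hP hR a
      have h2 := ENNReal.toReal_mono (by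
        simp [Fintype.card_ne_zero]) this
      simpa using h2)
  refine le_trans (le_of_eq ?_) h1
  congr 1
  rw [one_div, ← inv_pow, inv_inv, Real.log_pow, Fintype.card_fun, Fintype.card_fin]
  push_cast
  rw [Real.log_pow, Real.logb]
  ring

theorem rate_le (h : M₁ + M₂ + 1 < K) (P : Protocol K M₁ M₂)
    (hP : P.Private (by omega)) (hR : P.Recoverable) :
    P.rate (by omega) ≤ 1 / 2 := by
  have h1 := entropy_answer_ge h P hP hR
  have hB : 0 < P.n * Real.logb 2 (Fintype.card P.F) := by
    apply mul_pos
    · have := P.one_le_n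
      exact_mod_cast (by omega : 0 < P.n)
    · apply Real.logb_pos (by norm_num)
      have := Fintype.one_lt_card (α := P.F)
      exact_mod_cast this
  unfold Protocol.rate
  set B := P.n * Real.logb 2 (Fintype.card P.F) with hBdef
  rw [ENNReal.ofReal_mul (by norm_num)] at h1
  calc ENNReal.ofReal B / entropy (P.answerLaw (by omega))
      ≤ ENNReal.ofReal B / (ENNReal.ofReal 2 * ENNReal.ofReal B) := ENNReal.div_le_div_left h1 _
    _ = 1 / 2 := by
        have hB0 : ENNReal.ofReal B ≠ 0 := by simpa using hB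
        have h2 := ENNReal.mul_div_mul_left 1 (ENNReal.ofReal 2) hB0 ENNReal.ofReal_ne_top
        rw [mul_one] at h2
        rw [mul_comm (ENNReal.ofReal 2), h2]
        simp

theorem capacity_le (h : M₁ + M₂ + 1 < K) : capacity K M₁ M₂ (by omega) ≤ 1 / 2 := by
  unfold capacity
  refine iSup_le fun P => iSup_le fun hP => iSup_le fun hR => ?_
  exact rate_le h P hP hR


/-! ### Protocols from templates -/

/-- A demanded index together with a reusable set. -/
structure Demand (K M₁ : ℕ) where
  w : Fin K
  r : Finset (Fin K)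
  card_r : r.card = M₁
  notMem : w ∉ r

noncomputable instance : Fintype (Demand K M₁) :=
  Fintype.ofInjective (fun d : Demand K M₁ => (d.w, d.r)) (by
    intro d d' h
    cases d; cases d'
    simp only [Prod.mk.injEq] at h
    obtain ⟨rfl, rfl⟩ := h
    rfl)

/-- The action of a permutation of the indices on triples. -/
def permTriple (σ : Equiv.Perm (Fin K)) (t : Triple K M₁ M₂) : Triple K M₁ M₂ where
  W := σ t.W
  R := t.R.map σ.toEmbedding
  S := t.S.map σ.toEmbedding
  card_R := by simp [t.card_R]
  card_S := by simp [t.card_S]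
  disjoint_RS := by simpa using t.disjoint_RS
  W_notMem := by
    have := t.W_notMem
    simpa using this

theorem permTriple_mul (σ τ : Equiv.Perm (Fin K)) (t : Triple K M₁ M₂) :
    permTriple (σ * τ) t = permTriple σ (permTriple τ t) := by
  apply Triple.ext'
  · rfl
  · ext k
    simp only [permTriple, Finset.mem_map_equiv]
    rfl
  · ext k
    simp only [permTriple, Finset.mem_map_equiv]
    rfl

/-- The colouring of the indices attached to a triple. -/
def color (t : Triple K M₁ M₂) (k : Fin K) : Fin 4 :=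
  if k = t.W then 0 else if k ∈ t.R then 1 else if k ∈ t.S then 2 else 3

theorem color_eq_zero (t : Triple K M₁ M₂) (k : Fin K) : color t k = 0 ↔ k = t.W := by
  unfold color
  split_ifs <;> simp_all

theorem color_eq_one (t : Triple K M₁ M₂) (k : Fin K) : color t k = 1 ↔ k ∈ t.R := by
  have := t.W_notMem
  unfold color
  split_ifs with h1 h2 h3
  · simp only [h1]
    simp only [Finset.mem_union, not_or] at this
    simp [this.1]
  all_goals simp_all

theorem color_eq_two (t : Triple K M₁ M₂) (k : Fin K) : color t k = 2 ↔ k ∈ t.S := by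
  have := t.W_notMem
  have hd := Finset.disjoint_left.1 t.disjoint_RS
  unfold color
  split_ifs with h1 h2 h3
  · simp only [h1]
    simp only [Finset.mem_union, not_or] at this
    simp [this.2]
  · simp [hd h2]
  all_goals simp_all

theorem card_color (t : Triple K M₁ M₂) (i : Fin 4) :
    (Finset.univ.filter fun k => color t k = i).card =
      if i = 0 then 1 else if i = 1 then M₁ else if i = 2 then M₂ else K - (1 + M₁ + M₂) := by
  classical
  have h0 : (Finset.univ.filter fun k => color t k = 0).card = 1 := by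
    rw [Finset.card_eq_one]
    exact ⟨t.W, by ext k; simp [color_eq_zero]⟩
  have h1 : (Finset.univ.filter fun k => color t k = 1).card = M₁ := by
    refine Eq.trans ?_ t.card_R
    congr 1
    ext k; simp [color_eq_one]
  have h2 : (Finset.univ.filter fun k => color t k = 2).card = M₂ := by
    refine Eq.trans ?_ t.card_S
    congr 1
    ext k; simp [color_eq_two]
  have h3 : (Finset.univ.filter fun k => color t k = 3).card = K - (1 + M₁ + M₂) := by
    have hs := Finset.card_eq_sum_card_fiberwise (f := color t) (s := Finset.univ)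
      (t := Finset.univ) (fun _ _ => Finset.mem_coe.2 (Finset.mem_univ _))
    rw [Fin.sum_univ_four, h0, h1, h2] at hs
    simp only [Finset.card_univ, Fintype.card_fin] at hs
    omega
  fin_cases i
  · simpa using h0
  · simpa using h1
  · simpa using h2
  · simpa using h3

theorem exists_perm (t t' : Triple K M₁ M₂) : ∃ σ, permTriple σ t = t' := by
  classical
  have hc : ∀ i : Fin 4, Fintype.card {k // color t k = i} = Fintype.card {k // color t' k = i} := by
    intro i
    rw [Fintype.card_subtype, Fintype.card_subtype, card_color, card_color]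
  let e : ∀ i : Fin 4, {k // color t k = i} ≃ {k // color t' k = i} := fun i =>
    Fintype.equivOfCardEq (hc i)
  let σ : Equiv.Perm (Fin K) := (Equiv.sigmaFiberEquiv (color t)).symm.trans
    ((Equiv.sigmaCongrRight e).trans (Equiv.sigmaFiberEquiv (color t')))
  have hσ : ∀ k, color t' (σ k) = color t k := by
    intro k
    exact (e (color t k) ⟨k, rfl⟩).2
  refine ⟨σ, Triple.ext' ?_ ?_ ?_⟩
  · change σ t.W = t'.W
    rw [← color_eq_zero, hσ, color_eq_zero]
  · change t.R.map σ.toEmbedding = t'.R
    apply Finset.eq_of_subset_of_card_le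
    · intro k hk
      rw [Finset.mem_map] at hk
      obtain ⟨j, hj, rfl⟩ := hk
      change σ j ∈ t'.R
      rw [← color_eq_one, hσ, color_eq_one]
      exact hj
    · simp [t.card_R, t'.card_R]
  · change t.S.map σ.toEmbedding = t'.S
    apply Finset.eq_of_subset_of_card_le
    · intro k hk
      rw [Finset.mem_map] at hk
      obtain ⟨j, hj, rfl⟩ := hk
      change σ j ∈ t'.S
      rw [← color_eq_two, hσ, color_eq_two]
      exact hj
    · simp [t.card_S, t'.card_S]

section Template

variable (sel : Demand K M₁ → Triple K M₁ M₂)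

open Classical in
/-- The pairs (permutation, template demand) that produce the triple `t`. -/
noncomputable def fib (t : Triple K M₁ M₂) : Finset (Equiv.Perm (Fin K) × Demand K M₁) :=
  Finset.univ.filter fun z => permTriple z.1 (sel z.2) = t

theorem fib_nonempty (t : Triple K M₁ M₂) : (fib sel t).Nonempty := by
  classical
  let d : Demand K M₁ := ⟨t.W, t.R, t.card_R, fun hh =>
    t.W_notMem (Finset.mem_union_left _ hh)⟩
  obtain ⟨σ, hσ⟩ := exists_perm (sel d) t
  exact ⟨(σ, d), by simp [fib, hσ]⟩

theorem card_fib_le (t t' : Triple K M₁ M₂) : (fib sel t).card ≤ (fib sel t').card := by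
  classical
  obtain ⟨τ, hτ⟩ := exists_perm t t'
  apply Finset.card_le_card_of_injOn (fun z => (τ * z.1, z.2))
  · intro z hz
    simp only [fib, Finset.coe_filter, Finset.mem_univ, true_and, Set.mem_ofPred_eq] at hz ⊢
    rw [permTriple_mul, hz, hτ]
  · intro z _ z' _ hzz'
    simp only [Prod.mk.injEq, mul_right_inj] at hzz'
    exact Prod.ext hzz'.1 hzz'.2

theorem card_fib (t t' : Triple K M₁ M₂) : (fib sel t).card = (fib sel t').card :=
  le_antisymm (card_fib_le sel t t') (card_fib_le sel t' t)

/-- The query law: a uniformly random pair (permutation, template demand) producing `t`, of which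
only the permutation is sent. -/
noncomputable def templateQuery (t : Triple K M₁ M₂) : PMF (Equiv.Perm (Fin K)) :=
  (PMF.uniformOfFinset (fib sel t) (fib_nonempty sel t)).map Prod.fst

open Classical in
theorem templateQuery_apply (t t₀ : Triple K M₁ M₂) (σ : Equiv.Perm (Fin K)) :
    templateQuery sel t σ = ((fib sel t₀).card : ℝ≥0∞)⁻¹ *
      ∑ d : Demand K M₁, (if permTriple σ (sel d) = t then 1 else 0) := by
  unfold templateQuery
  rw [PMF.map_apply, tsum_fintype, Fintype.sum_prod_type, card_fib sel t₀ t]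
  simp only [PMF.uniformOfFinset_apply]
  rw [Finset.sum_eq_single σ]
  · rw [Finset.mul_sum]
    apply Finset.sum_congr rfl
    intro d _
    simp [fib]
  · intro τ _ hτ
    apply Finset.sum_eq_zero
    intro d _
    simp [Ne.symm hτ]
  · simp

/-- The protocol attached to a template: the answer is the template function `f` evaluated at the
permuted messages. -/
noncomputable def templateProtocol (F : Type) [Field F] [Fintype F] (n : ℕ) (hn : 1 ≤ n)
    (Ans : Type) (f : (Fin K → Fin n → F) → Ans) : Protocol K M₁ M₂ where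
  F := F
  n := n
  one_le_n := hn
  Query := Equiv.Perm (Fin K)
  Answer := Ans
  query := templateQuery sel
  answer := fun σ x => f fun k => x (σ k)

variable (F : Type) [Field F] [Fintype F] (n : ℕ) (hn : 1 ≤ n)
    (Ans : Type) (f : (Fin K → Fin n → F) → Ans)

open Classical in
theorem template_event (h : M₁ + M₂ < K) (t₀ : Triple K M₁ M₂)
    (pr : Triple K M₁ M₂ → Equiv.Perm (Fin K) → Prop) :
    (templateProtocol sel F n hn Ans f).prob h {ω | pr ω.1 ω.2.1} =
      ((Fintype.card (Triple K M₁ M₂) : ℝ≥0∞)⁻¹ * ((fib sel t₀).card : ℝ≥0∞)⁻¹) *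
        ∑ σ : Equiv.Perm (Fin K), ∑ d : Demand K M₁,
          (if pr (permTriple σ (sel d)) σ then 1 else 0) := by
  have h1 := @joint_event _ _ _ h (templateProtocol sel F n hn Ans f) (fun t q => pr t q)
    (fun _ _ => Classical.propDecidable _)
  refine h1.trans ?_
  rw [tsum_fintype]
  have h2 : ∀ t : Triple K M₁ M₂, (tripleLaw h) t *
      ∑' q, ((templateProtocol sel F n hn Ans f).query t) q * (if pr t q then 1 else 0) =
      ((Fintype.card (Triple K M₁ M₂) : ℝ≥0∞)⁻¹ * ((fib sel t₀).card : ℝ≥0∞)⁻¹) *
        ∑ σ : Equiv.Perm (Fin K), ∑ d : Demand K M₁,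
          (if permTriple σ (sel d) = t then (if pr t σ then 1 else 0) else 0) := by
    intro t
    rw [tripleLaw_apply, mul_assoc]
    congr 1
    change ∑' q : Equiv.Perm (Fin K), templateQuery sel t q * (if pr t q then 1 else 0) = _
    rw [tsum_fintype, Finset.mul_sum]
    apply Finset.sum_congr rfl
    intro σ _
    rw [templateQuery_apply sel t t₀ σ, mul_assoc]
    congr 1
    rw [Finset.sum_mul]
    apply Finset.sum_congr rfl
    intro d _
    split_ifs <;> simp
  rw [Finset.sum_congr rfl fun t _ => h2 t, ← Finset.mul_sum]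
  congr 1
  rw [Finset.sum_comm]
  apply Finset.sum_congr rfl
  intro σ _
  rw [Finset.sum_comm]
  apply Finset.sum_congr rfl
  intro d _
  rw [Finset.sum_ite_eq]
  simp

open Classical in
theorem sum_demand (hW : ∀ d, (sel d).W = d.w) (hR : ∀ d, (sel d).R = d.r)
    (σ : Equiv.Perm (Fin K)) (w : Fin K) (r : Finset (Fin K)) (hr : r.card = M₁) (hw : w ∉ r) :
    ∑ d : Demand K M₁, (if (permTriple σ (sel d)).W = w ∧ (permTriple σ (sel d)).R = r
      then (1 : ℝ≥0∞) else 0) = 1 := by
  let d₀ : Demand K M₁ := ⟨σ.symm w, r.map σ.symm.toEmbedding, by simp [hr], by simpa using hw⟩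
  rw [Finset.sum_eq_single d₀]
  · rw [if_pos]
    constructor
    · simp [permTriple, hW, d₀]
    · simp only [permTriple, hR, d₀]
      ext k
      simp
  · intro d _ hd
    rw [if_neg]
    rintro ⟨h1, h2⟩
    apply hd
    simp only [permTriple, hW, hR] at h1 h2
    cases d with
    | mk dw dr hdr hdw =>
      simp only at h1 h2
      subst h1 h2
      simp only [d₀, Demand.mk.injEq]
      constructor
      · simp
      · ext k
        simp
  · simp

theorem template_private (h : M₁ + M₂ < K) (hW : ∀ d, (sel d).W = d.w)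
    (hR : ∀ d, (sel d).R = d.r) : (templateProtocol sel F n hn Ans f).Private h := by
  classical
  intro q w r hr hw _
  change Equiv.Perm (Fin K) at q
  have t₀ : Triple K M₁ M₂ := (Triple.nonempty h).some
  have e1 := template_event sel F n hn Ans f h t₀ (fun _ σ => σ = q)
  have e2 := template_event sel F n hn Ans f h t₀ (fun t σ => t.W = w ∧ t.R = r ∧ σ = q)
  have e3 := template_event sel F n hn Ans f h t₀ (fun t _ => t.W = w ∧ t.R = r)
  have e4 := template_event sel F n hn Ans f h t₀ (fun _ _ => True)
  have htot : (templateProtocol sel F n hn Ans f).prob h {ω | True} = 1 := by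
    unfold Protocol.prob
    rw [PMF.toOuterMeasure_apply_eq_one_iff]
    intro ω _
    trivial
  rw [htot] at e4
  set c : ℝ≥0∞ := (Fintype.card (Triple K M₁ M₂) : ℝ≥0∞)⁻¹ * ((fib sel t₀).card : ℝ≥0∞)⁻¹
  have s1 : (∑ σ : Equiv.Perm (Fin K), ∑ d : Demand K M₁,
      (if σ = q then (1 : ℝ≥0∞) else 0)) = Fintype.card (Demand K M₁) := by
    rw [Finset.sum_eq_single q]
    · simp
    · intro σ _ hσ
      simp [hσ]
    · simp
  have s2 : (∑ σ : Equiv.Perm (Fin K), ∑ d : Demand K M₁,
      (if (permTriple σ (sel d)).W = w ∧ (permTriple σ (sel d)).R = r ∧ σ = q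
        then (1 : ℝ≥0∞) else 0)) = 1 := by
    rw [Finset.sum_eq_single q]
    · refine Eq.trans ?_ (sum_demand sel hW hR q w r hr hw)
      apply Finset.sum_congr rfl
      intro d _
      simp
    · intro σ _ hσ
      simp [hσ]
    · simp
  have s3 : (∑ σ : Equiv.Perm (Fin K), ∑ d : Demand K M₁,
      (if (permTriple σ (sel d)).W = w ∧ (permTriple σ (sel d)).R = r
        then (1 : ℝ≥0∞) else 0)) = Fintype.card (Equiv.Perm (Fin K)) := by
    rw [Finset.sum_congr rfl fun σ _ => sum_demand sel hW hR σ w r hr hw]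
    simp
  simp only [if_true, Finset.sum_const, Finset.card_univ, nsmul_eq_mul, mul_one] at e4
  have e1' := e1.trans (show _ = c * (Fintype.card (Demand K M₁) : ℝ≥0∞) by
    congr 1; convert s1)
  have e2' := e2.trans (show _ = c * 1 by congr 1; convert s2)
  have e3' := e3.trans (show _ = c * (Fintype.card (Equiv.Perm (Fin K)) : ℝ≥0∞) by
    congr 1; convert s3)
  refine (congrArg₂ (· / ·) e2' e1').trans (Eq.trans ?_ e3'.symm)
  simp only [mul_one]
  have hD : (Fintype.card (Demand K M₁) : ℝ≥0∞) ≠ 0 := by
    intro h0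
    rw [h0] at e4
    simp at e4
  have hc : c ≠ 0 := by
    intro h0
    rw [h0] at e4
    simp at e4
  have hc' : c ≠ ∞ := by
    have : (Fintype.card (Triple K M₁ M₂) : ℝ≥0∞) ≠ 0 := by
      have := Triple.nonempty h
      simp [Fintype.card_ne_zero]
    have h2 : ((fib sel t₀).card : ℝ≥0∞) ≠ 0 := by
      have := (fib_nonempty sel t₀).card_pos
      simp; exact (fib_nonempty sel t₀).ne_empty
    exact ENNReal.mul_ne_top (ENNReal.inv_ne_top.2 this) (ENNReal.inv_ne_top.2 h2)
  refine ((ENNReal.eq_div_iff (mul_ne_zero hc hD) (ENNReal.mul_ne_top hc' (by simp))).2 ?_).symm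
  calc _ = (c * (Fintype.card (Equiv.Perm (Fin K)) * Fintype.card (Demand K M₁))) * c := by
        ring
    _ = c := by rw [← e4, one_mul]

theorem template_recoverable (hW : ∀ d, (sel d).W = d.w)
    (hdec : ∀ (d : Demand K M₁) (x x' : Fin K → Fin n → F),
      (∀ k ∈ (sel d).R ∪ (sel d).S, x k = x' k) → f x = f x' → x d.w = x' d.w) :
    (templateProtocol sel F n hn Ans f).Recoverable := by
  classical
  intro t q hq x x' hx hA
  change Equiv.Perm (Fin K) at q
  change templateQuery sel t q ≠ 0 at hq
  rw [templateQuery_apply sel t t q] at hq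
  have hsum := right_ne_zero_of_mul hq
  obtain ⟨d, -, hd⟩ := Finset.exists_ne_zero_of_sum_ne_zero hsum
  have hd' : permTriple q (sel d) = t := by
    by_contra hcon
    simp [hcon] at hd
  subst hd'
  change x (q (sel d).W) = x' (q (sel d).W)
  rw [hW]
  refine hdec d (fun k => x (q k)) (fun k => x' (q k)) ?_ hA
  intro k hk
  apply hx
  simp only [permTriple, Finset.mem_union, Finset.mem_map_equiv, Equiv.symm_apply_apply]
  simpa using hk

end Template

/-! ### The two-symbol template with `p` classes of size `c` -/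

/-- The class of an index. -/
def cls (p c : ℕ) (k : Fin (p * c)) : Fin p := (finProdFinEquiv.symm k).1

theorem card_class (p c : ℕ) (j : Fin p) :
    (Finset.univ.filter fun k : Fin (p * c) => cls p c k = j).card = c := by
  classical
  have : (Finset.univ.filter fun k : Fin (p * c) => cls p c k = j) =
      (Finset.univ.filter fun z : Fin p × Fin c => z.1 = j).map finProdFinEquiv.toEmbedding := by
    ext k
    rw [Finset.mem_filter_univ, Finset.mem_map_equiv, Finset.mem_filter_univ]
    rfl
  rw [this, Finset.card_map]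
  have h2 : (Finset.univ.filter fun z : Fin p × Fin c => z.1 = j) =
      ({j} : Finset (Fin p)) ×ˢ (Finset.univ : Finset (Fin c)) := by
    ext z
    simp only [Finset.mem_filter_univ, Finset.mem_product, Finset.mem_singleton, Finset.mem_univ,
      and_true]
  rw [h2, Finset.card_product]
  simp

/-- For every demand there are a class `j` to be cancelled and a set `S` of single-use side
information such that everything outside the class `j` is known. -/
theorem exists_choice (p c b M₁ M₂ : ℕ) (hbc : b ≤ c)
    (hM : M₁ < (p - 1) * (c + 1 - b)) (hK : M₁ + M₂ + 1 + b = p * c)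
    (d : Demand (p * c) M₁) :
    ∃ t : Triple (p * c) M₁ M₂, t.W = d.w ∧ t.R = d.r ∧
      ∃ j : Fin p, j ≠ cls p c d.w ∧
        ∀ k : Fin (p * c), k ≠ d.w → cls p c k ≠ j → k ∈ t.R ∪ t.S := by
  classical
  obtain ⟨w, r, hr, hw⟩ := d
  simp only
  -- the class with few elements of `r`
  have hj : ∃ j : Fin p, j ≠ cls p c w ∧ (r.filter fun k => cls p c k = j).card ≤ c - b := by
    by_contra hcon
    push Not at hcon
    have h1 : ∑ j ∈ (Finset.univ : Finset (Fin p)).erase (cls p c w),
        (r.filter fun k => cls p c k = j).card ≤ r.card := by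
      rw [← Finset.card_biUnion]
      · apply Finset.card_le_card
        intro k hk
        simp only [Finset.mem_biUnion, Finset.mem_filter] at hk
        exact hk.choose_spec.2.1
      · intro i _ j _ hij
        change Disjoint _ _
        rw [Finset.disjoint_left]
        intro k hk hk'
        simp only [Finset.mem_filter] at hk hk'
        exact hij (hk.2.symm.trans hk'.2)
    have h2 : ((Finset.univ : Finset (Fin p)).erase (cls p c w)).card • (c + 1 - b) ≤
        ∑ j ∈ (Finset.univ : Finset (Fin p)).erase (cls p c w),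
          (r.filter fun k => cls p c k = j).card := by
      apply Finset.card_nsmul_le_sum
      intro j hj
      have := hcon j (Finset.ne_of_mem_erase hj)
      omega
    rw [Finset.card_erase_of_mem (Finset.mem_univ _), Finset.card_univ, Fintype.card_fin,
      smul_eq_mul] at h2
    omega
  obtain ⟨j, hjw, hjr⟩ := hj
  set A : Finset (Fin (p * c)) :=
    (Finset.univ.filter fun k => ¬ cls p c k = j) \ (insert w r) with hA
  have hAsub : A ⊆ (Finset.univ : Finset (Fin (p * c))) \ insert w r := by
    intro k hk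
    simp only [hA, Finset.mem_sdiff, Finset.mem_filter] at hk
    simp only [Finset.mem_sdiff, Finset.mem_univ, true_and]
    exact hk.2
  have hAcard : A.card ≤ M₂ := by
    have e1 : (Finset.univ.filter fun k : Fin (p * c) => ¬ cls p c k = j).card + c = p * c := by
      have := Finset.card_filter_add_card_filter_not (s := (Finset.univ : Finset (Fin (p * c))))
        (fun k => cls p c k = j)
      rw [card_class] at this
      simp only [Finset.card_univ, Fintype.card_fin] at this
      omega
    have e2 : (insert w r ∩ Finset.univ.filter fun k : Fin (p * c) => ¬ cls p c k = j).card +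
        (r.filter fun k => cls p c k = j).card = M₁ + 1 := by
      have h3 : (insert w r ∩ Finset.univ.filter fun k : Fin (p * c) => ¬ cls p c k = j) =
          insert w (r.filter fun k => ¬ cls p c k = j) := by
        ext k
        simp only [Finset.mem_inter, Finset.mem_insert, Finset.mem_filter, Finset.mem_univ,
          true_and]
        constructor
        · rintro ⟨h1 | h1, h2⟩
          · exact Or.inl h1
          · exact Or.inr ⟨h1, h2⟩
        · rintro (h1 | ⟨h1, h2⟩)
          · subst h1
            exact ⟨Or.inl rfl, fun hh => hjw hh.symm⟩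
          · exact ⟨Or.inr h1, h2⟩
      rw [h3, Finset.card_insert_of_notMem (by simp [hw])]
      have := Finset.card_filter_add_card_filter_not (s := r) (fun k => cls p c k = j)
      omega
    have e3 : A.card + (insert w r ∩ Finset.univ.filter
        fun k : Fin (p * c) => ¬ cls p c k = j).card =
        (Finset.univ.filter fun k : Fin (p * c) => ¬ cls p c k = j).card := by
      rw [hA, Finset.inter_comm]
      exact Finset.card_sdiff_add_card_inter _ _
    omega
  obtain ⟨S, hAS, hSsub, hScard⟩ := Finset.exists_subsuperset_card_eq hAsub hAcard (by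
    rw [Finset.card_sdiff_of_subset (Finset.subset_univ _), Finset.card_insert_of_notMem hw]
    simp only [Finset.card_univ, Fintype.card_fin]
    omega)
  have hS : ∀ k ∈ S, k ≠ w ∧ k ∉ r := by
    intro k hk
    have := hSsub hk
    simpa [not_or] using this
  refine ⟨⟨w, r, S, hr, hScard, ?_, ?_⟩, rfl, rfl, j, hjw, ?_⟩
  · rw [Finset.disjoint_left]
    intro a ha ha'
    exact (hS a ha').2 ha
  · simp only [Finset.mem_union, not_or]
    exact ⟨hw, fun hwS => (hS w hwS).1 rfl⟩
  · intro k hk hkj
    simp only [Finset.mem_union]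
    by_cases hkr : k ∈ r
    · exact Or.inl hkr
    · right
      apply hAS
      simp [hA, hkj, hk, hkr]

/-- The template function: the sum of all messages, and the sum of all messages weighted by the
number of their class. -/
def templateFun (p c q : ℕ) (x : Fin (p * c) → Fin 1 → ZMod q) :
    (Fin 1 → ZMod q) × (Fin 1 → ZMod q) :=
  (∑ k, x k, ∑ k, ((cls p c k : ℕ) : ZMod q) • x k)

theorem template_decode (p c q : ℕ) [Fact q.Prime] (hpq : p ≤ q)
    (w : Fin (p * c)) (j : Fin p) (hj : j ≠ cls p c w)
    (x x' : Fin (p * c) → Fin 1 → ZMod q)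
    (hx : ∀ k, k ≠ w → cls p c k ≠ j → x k = x' k)
    (hf : templateFun p c q x = templateFun p c q x') : x w = x' w := by
  classical
  simp only [templateFun, Prod.mk.injEq] at hf
  obtain ⟨h1, h2⟩ := hf
  have h3 : ∑ k, (((cls p c k : ℕ) : ZMod q) - ((j : ℕ) : ZMod q)) • (x k - x' k) = 0 := by
    have e1 : ∑ k, (((cls p c k : ℕ) : ZMod q) - ((j : ℕ) : ZMod q)) • (x k - x' k) =
        (∑ k, ((cls p c k : ℕ) : ZMod q) • x k - ∑ k, ((cls p c k : ℕ) : ZMod q) • x' k) -
        ((j : ℕ) : ZMod q) • (∑ k, x k - ∑ k, x' k) := by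
      rw [← Finset.sum_sub_distrib, ← Finset.sum_sub_distrib, Finset.smul_sum,
        ← Finset.sum_sub_distrib]
      apply Finset.sum_congr rfl
      intro k _
      rw [sub_smul, smul_sub, smul_sub]
    rw [e1, h1, h2]
    simp
  rw [Finset.sum_eq_single w] at h3
  · have h4 : (((cls p c w : ℕ) : ZMod q) - ((j : ℕ) : ZMod q)) ≠ 0 := by
      rw [sub_ne_zero]
      intro h5
      rw [ZMod.natCast_eq_natCast_iff'] at h5
      have a1 : (cls p c w : ℕ) < q := lt_of_lt_of_le (cls p c w).2 hpq
      have a2 : (j : ℕ) < q := lt_of_lt_of_le j.2 hpq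
      rw [Nat.mod_eq_of_lt a1, Nat.mod_eq_of_lt a2] at h5
      exact hj (Fin.ext h5.symm)
    have h6 := (smul_eq_zero.1 h3).resolve_left h4
    exact sub_eq_zero.1 h6
  · intro k _ hk
    by_cases hkj : cls p c k = j
    · rw [hkj]
      simp
    · rw [hx k hk hkj]
      simp
  · simp

/-- The capacity is exactly `1 / 2` whenever the `K = p * c` messages can be split into `p` classes
of size `c` with `M₁ < (p - 1) * (c + 1 - b)`, where `b = K - 1 - M₁ - M₂` satisfies
`1 ≤ b ≤ c`. -/
theorem capacity_eq_half (p c b M₁ M₂ : ℕ) (hb : 1 ≤ b) (hbc : b ≤ c)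
    (hM : M₁ < (p - 1) * (c + 1 - b)) (hK : M₁ + M₂ + 1 + b = p * c) (h : M₁ + M₂ < p * c) :
    capacity (p * c) M₁ M₂ h = 1 / 2 := by
  classical
  apply le_antisymm (capacity_le (by omega))
  obtain ⟨q, hpq, hq⟩ := Nat.exists_infinite_primes p
  have : Fact q.Prime := ⟨hq⟩
  choose sel hselW hselR hselj using exists_choice p c b M₁ M₂ hbc hM hK
  set P : Protocol (p * c) M₁ M₂ := templateProtocol sel (ZMod q) 1 le_rfl
    ((Fin 1 → ZMod q) × (Fin 1 → ZMod q)) (templateFun p c q) with hPdef
  have hPriv : P.Private h := template_private sel _ _ _ _ _ h hselW hselR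
  have hRec : P.Recoverable := by
    apply template_recoverable sel _ _ _ _ _ hselW
    intro d x x' hx hf
    obtain ⟨j, hj, hk⟩ := hselj d
    exact template_decode p c q hpq d.w j hj x x' (fun k h1 h2 => hx k (hk k h1 h2)) hf
  have hrate : 1 / 2 ≤ P.rate h := by
    have hent : entropy (P.answerLaw h) ≤
        ENNReal.ofReal (Real.log (Fintype.card ((Fin 1 → ZMod q) × (Fin 1 → ZMod q))) /
          Real.log 2) := entropy_le (α := (Fin 1 → ZMod q) × (Fin 1 → ZMod q)) (P.answerLaw h)
    have hcard : (Fintype.card ((Fin 1 → ZMod q) × (Fin 1 → ZMod q)) : ℝ) = (q : ℝ) ^ 2 := by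
      rw [Fintype.card_prod, Fintype.card_fun, ZMod.card]
      push_cast
      simp
      ring
    have hB : 0 < Real.logb 2 q := by
      apply Real.logb_pos (by norm_num)
      exact_mod_cast hq.one_lt
    have h2 : Real.log (Fintype.card ((Fin 1 → ZMod q) × (Fin 1 → ZMod q))) / Real.log 2 =
        2 * Real.logb 2 q := by
      rw [hcard, Real.log_pow, Real.logb]
      push_cast
      ring
    rw [h2, ENNReal.ofReal_mul (by norm_num)] at hent
    have hPr : P.rate h = ENNReal.ofReal (Real.logb 2 q) / entropy (P.answerLaw h) := by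
      have e1 : ((P.n : ℝ) * Real.logb 2 (Fintype.card P.F)) = Real.logb 2 q := by
        change (((1 : ℕ) : ℝ) * Real.logb 2 (Fintype.card (ZMod q))) = Real.logb 2 q
        rw [ZMod.card]
        simp
      unfold Protocol.rate
      rw [e1]
    rw [hPr]
    have hB0 : ENNReal.ofReal (Real.logb 2 q) ≠ 0 := by simpa using hB
    calc (1 : ℝ≥0∞) / 2 =
        ENNReal.ofReal (Real.logb 2 q) / (ENNReal.ofReal 2 * ENNReal.ofReal (Real.logb 2 q)) := by
          have h3 := ENNReal.mul_div_mul_left 1 (ENNReal.ofReal 2) hB0 ENNReal.ofReal_ne_top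
          rw [mul_one] at h3
          rw [mul_comm (ENNReal.ofReal 2), h3]
          simp
      _ ≤ _ := ENNReal.div_le_div_left hent _
  refine hrate.trans ?_
  unfold capacity
  exact le_iSup_of_le P (le_iSup_of_le hPriv (le_iSup_of_le hRec le_rfl))

/-- The quantity `K* = min (K - M₁ - M₂, ⌈K / (M₂ + 1)⌉)` of the problem. -/
def Kstar (K M₁ M₂ : ℕ) : ℕ := min (K - M₁ - M₂) ⌈(K : ℚ) / (M₂ + 1)⌉₊

/-- For every `N` there are `M₁, M₂ ≥ 2` and `K > M₁ + M₂` with `K* ≥ N` for which the capacity is
exactly `1 / 2`.  For `N = 3` this refutes the formula `C(K, M₁, M₂) = 1 / K*`. -/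
theorem result : ∀ N : ℕ, ∃ (K M₁ M₂ : ℕ) (h : M₁ + M₂ < K),
    2 ≤ M₁ ∧ 2 ≤ M₂ ∧ N ≤ Kstar K M₁ M₂ ∧ capacity K M₁ M₂ h = 1 / 2 := by
  intro N
  -- parameters
  obtain ⟨m, hm⟩ : ∃ m, m = N + 2 := ⟨_, rfl⟩
  have hm2 : 2 ≤ m := by omega
  obtain ⟨e, he⟩ : ∃ e, m = e + 2 := ⟨m - 2, by omega⟩
  set p := 2 * m with hp
  set c := 2 * m ^ 2 with hc
  set M₂ := (2 * m - 1) ^ 2 with hM₂
  set M₁ := (p - 1) * (c + 1 - m) - 1 with hM₁
  have hcm : m ≤ c := by nlinarith
  have hp1 : p - 1 = 2 * e + 3 := by omega
  have hc1 : c + 1 - m = 2 * e ^ 2 + 7 * e + 7 := by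
    have : c = 2 * (e + 2) ^ 2 := by rw [hc, he]
    have : c = 2 * e ^ 2 + 8 * e + 8 := by rw [this]; ring
    omega
  have hM₂' : M₂ = 4 * e ^ 2 + 12 * e + 9 := by
    have : 2 * m - 1 = 2 * e + 3 := by omega
    rw [hM₂, this]; ring
  have hM₁' : M₁ = 4 * e ^ 3 + 20 * e ^ 2 + 35 * e + 20 := by
    rw [hM₁, hp1, hc1]
    have : (2 * e + 3) * (2 * e ^ 2 + 7 * e + 7) = 4 * e ^ 3 + 20 * e ^ 2 + 35 * e + 21 := by ring
    omega
  have hpc : p * c = 4 * e ^ 3 + 24 * e ^ 2 + 48 * e + 32 := by
    rw [hp, hc, he]; ring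
  have hK : M₁ + M₂ + 1 + m = p * c := by
    rw [hpc, hM₁', hM₂', he]; ring
  have h : M₁ + M₂ < p * c := by omega
  refine ⟨p * c, M₁, M₂, h, by rw [hM₁']; omega, by rw [hM₂']; omega, ?_, ?_⟩
  · unfold Kstar
    apply le_min
    · omega
    · have h1 : (N : ℚ) ≤ ((p * c : ℕ) : ℚ) / ((M₂ : ℚ) + 1) := by
        rw [le_div_iff₀ (by positivity)]
        have h2 : N * (M₂ + 1) ≤ p * c := by
          have hN : N = e := by omega
          rw [hpc, hM₂', hN]
          nlinarith
        exact_mod_cast h2
      have h3 := Nat.le_ceil (((p * c : ℕ) : ℚ) / ((M₂ : ℚ) + 1))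
      exact_mod_cast h1.trans h3
  · apply capacity_eq_half p c m M₁ M₂ (by omega) hcm _ hK h
    rw [hM₁]
    have : 0 < (p - 1) * (c + 1 - m) := by
      rw [hp1, hc1]
      positivity
    omega

end Pool.Agent.Results.MP_c9b02e_lc.Disproof
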